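import Mathlib
import Pool.Agent.helper24.BP.Model

set_option autoImplicit false

/-!
# M11: the nondeterministic machine
-/

namespace Pool.Agent.helper45.BP

open Finset Classical Pool.Agent.helper24.BP

noncomputable section

/-- the states: `inl false` = start, `inl true` = accept, `inr (inl (r, i))`: about to read line
`i`, `inr (inr (r, i, u, j))`: the letter `u` of line `i` was read, about to read point `j` -/
abbrev St (N W t : ℕ) := Bool ⊕ ((Fin t × Fin N) ⊕ (Fin t × Fin N × Fin W × Fin N))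

variable {N q n W t : ℕ}

/-- after the `r`-th incident pair, with line `i` -/
def nextB (N W t : ℕ) (r : Fin t) (i : Fin N) : Finset (St N W t) :=
  if h : r.1 + 1 < t then
    (univ.filter fun i' : Fin N => i < i').image fun i' => Sum.inr (Sum.inl (⟨r.1 + 1, h⟩, i'))
  else {Sum.inl true}

/-- the transitions -/
def nx [Fact q.Prime] (ht : 1 ≤ t) (e : Fin W ≃ Pt q) : St N W t → Fin W → Finset (St N W t)
  | Sum.inl false, _ => univ.image fun i : Fin N => Sum.inr (Sum.inl (⟨0, ht⟩, i))
  | Sum.inl true, _ => ∅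
  | Sum.inr (Sum.inl (r, i)), u => univ.image fun j : Fin N => Sum.inr (Sum.inr (r, i, u, j))
  | Sum.inr (Sum.inr (r, i, u, _)), w => if inc (e u) (e w) then nextB N W t r i else ∅

/-- the position read -/
def qu (hN : 1 ≤ N) (h2N : 2 * N ≤ n) : St N W t → Fin n
  | Sum.inl _ => ⟨0, by omega⟩
  | Sum.inr (Sum.inl (_, i)) => ⟨i.1, by omega⟩
  | Sum.inr (Sum.inr (_, _, _, j)) => ⟨N + j.1, by omega⟩

/-- the machine -/
def mach [Fact q.Prime] (hN : 1 ≤ N) (ht : 1 ≤ t) (h2N : 2 * N ≤ n) (e : Fin W ≃ Pt q) :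
    Machine n W where
  Q := St N W t
  fin := inferInstance
  start := Sum.inl false
  query := qu hN h2N
  next := nx ht e
  acc := {Sum.inl true}

lemma card_nextB (hN : 1 ≤ N) (r : Fin t) (i : Fin N) : (nextB N W t r i).card ≤ N := by
  unfold nextB
  split_ifs with h
  · refine card_image_le.trans ((card_filter_le _ _).trans ?_)
    rw [card_univ, Fintype.card_fin]
  · rw [card_singleton]
    exact hN

lemma card_nx [Fact q.Prime] (hN : 1 ≤ N) (ht : 1 ≤ t) (e : Fin W ≃ Pt q) (s : St N W t)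
    (w : Fin W) : (nx ht e s w).card ≤ N := by
  rcases s with (_ | _) | ⟨r, i⟩ | ⟨r, i, u, j⟩
  · refine card_image_le.trans ?_
    rw [card_univ, Fintype.card_fin]
  · simp [nx]
  · refine card_image_le.trans ?_
    rw [card_univ, Fintype.card_fin]
  · show (if inc (e u) (e w) then nextB N W t r i else ∅).card ≤ N
    split_ifs
    · exact card_nextB hN r i
    · simp

/-- the good lines -/
def gd (z : Inp N q) : Finset (Fin N) := univ.filter fun i => ∃ j : Fin N, inc (z.1 i) (z.2 j)

/-- the invariant -/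
def Inv (h2N : 2 * N ≤ n) (e : Fin W ≃ Pt q) (x : Fin n → Fin W) : St N W t → Prop
  | Sum.inl false => True
  | Sum.inl true => Yes t (dec h2N e x)
  | Sum.inr (Sum.inl (r, i)) => r.1 ≤ ((gd (dec h2N e x)).filter fun i' => i' < i).card
  | Sum.inr (Sum.inr (r, i, u, _)) =>
      r.1 ≤ ((gd (dec h2N e x)).filter fun i' => i' < i).card ∧ u = x ⟨i.1, by omega⟩

lemma inv_step [Fact q.Prime] (hN : 1 ≤ N) (ht : 1 ≤ t) (h2N : 2 * N ≤ n) (e : Fin W ≃ Pt q)
    (x : Fin n → Fin W) {s s' : St N W t} (hs : Inv h2N e x s)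
    (h : s' ∈ nx ht e s (x (qu hN h2N s))) : Inv h2N e x s' := by
  rcases s with (_ | _) | ⟨r, i⟩ | ⟨r, i, u, j⟩
  · obtain ⟨i, -, rfl⟩ := mem_image.1 h
    exact Nat.zero_le _
  · simp [nx] at h
  · obtain ⟨j, -, rfl⟩ := mem_image.1 h
    exact ⟨hs, rfl⟩
  · obtain ⟨h1, h2⟩ := hs
    have h' : s' ∈ (if inc (e u) (e (x ⟨N + j.1, by omega⟩)) then nextB N W t r i else ∅) := h
    split_ifs at h' with hinc
    · have hgd : i ∈ gd (dec h2N e x) := by
        refine mem_filter.2 ⟨mem_univ _, j, ?_⟩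
        rw [h2] at hinc
        exact hinc
      obtain ⟨A, hA1, hA2, hA3⟩ : ∃ A ⊆ gd (dec h2N e x), (∀ k ∈ A, k ≤ i) ∧ r.1 + 1 ≤ A.card := by
        refine ⟨insert i ((gd (dec h2N e x)).filter fun i' => i' < i), ?_, ?_, ?_⟩
        · intro i' hi'
          rcases mem_insert.1 hi' with rfl | hi'
          · exact hgd
          · exact (mem_filter.1 hi').1
        · intro i' hi'
          rcases mem_insert.1 hi' with rfl | hi'
          · exact le_rfl
          · exact (mem_filter.1 hi').2.le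
        · rw [card_insert_of_notMem (by simp)]
          omega
      unfold nextB at h'
      split_ifs at h' with hr
      · obtain ⟨i', hi', rfl⟩ := mem_image.1 h'
        have hlt : i < i' := (mem_filter.1 hi').2
        show r.1 + 1 ≤ _
        exact hA3.trans (card_le_card fun k hk =>
          mem_filter.2 ⟨hA1 hk, lt_of_le_of_lt (hA2 k hk) hlt⟩)
      · rw [mem_singleton] at h'
        subst h'
        show t ≤ (gd (dec h2N e x)).card
        have h4 := card_le_card hA1
        have h5 := r.2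
        omega
    · simp at h'

/-- **M11** -/
theorem upper {N q n W t : ℕ} [Fact q.Prime] (hN : 1 ≤ N) (ht : 1 ≤ t) (h2N : 2 * N ≤ n)
    (e : Fin W ≃ Pt q) :
    ∃ M : Machine n W, M.size ≤ 2 + t * N + t * N * W * N ∧
      Computes M (fun x => Yes t (dec h2N e x)) (2 * t + 1 : ℕ) ((2 * t + 1) * Nat.clog 2 N : ℕ) := by
  refine ⟨mach hN ht h2N e, ?_, ?_⟩
  · show Fintype.card (St N W t) ≤ _
    simp only [Fintype.card_sum, Fintype.card_bool, Fintype.card_prod, Fintype.card_fin]
    apply le_of_eq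
    ring
  · intro x
    constructor
    · intro T' G' s hc hacc
      have hinv : ∀ {T' G' : ℕ} {s : (mach hN ht h2N e).Q}, Comp (mach hN ht h2N e) x T' G' s →
          Inv h2N e x s := by
        intro T' G' s hc
        induction hc with
        | start => exact trivial
        | step hc hs ih => exact inv_step hN ht h2N e x ih hs
      have hs : s = Sum.inl true := hacc
      have := hinv hc
      rw [hs] at this
      exact this
    · intro hyes
      have hyes' : t ≤ (gd (dec h2N e x)).card := hyes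
      obtain ⟨S, hS, hSc⟩ := exists_subset_card_eq hyes'
      set f := S.orderEmbOfFin hSc with hf
      have hfS : ∀ r, f r ∈ S := fun r => orderEmbOfFin_mem S hSc r
      have hgood : ∀ r, ∃ j : Fin N, inc ((dec h2N e x).1 (f r)) ((dec h2N e x).2 j) :=
        fun r => (mem_filter.1 (hS (hfS r))).2
      choose J hJ using hgood
      set c := Nat.clog 2 N with hc
      have hclog : ∀ (s : St N W t) (w : Fin W), Nat.clog 2 (nx ht e s w).card ≤ c :=
        fun s w => Nat.clog_mono_right 2 (card_nx hN ht e s w)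
      -- one step of the machine
      have step : ∀ {T G B : ℕ} {s s' : St N W t}, Comp (mach hN ht h2N e) x T G s →
          s' ∈ nx ht e s (x (qu hN h2N s)) → G ≤ B →
          ∃ G' ≤ B + c, Comp (mach hN ht h2N e) x (T + 1) G' s' := by
        intro T G B s s' h1 h2 h3
        have h4 := hclog s (x (qu hN h2N s))
        exact ⟨_, Nat.add_le_add h3 h4, Comp.step (M := mach hN ht h2N e) h1 h2⟩
      have reach : ∀ r : ℕ, ∀ hr : r < t, ∃ G' ≤ (2 * r + 1) * c,
          Comp (mach hN ht h2N e) x (2 * r + 1) G' (Sum.inr (Sum.inl (⟨r, hr⟩, f ⟨r, hr⟩))) := by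
        intro r
        induction r with
        | zero =>
          intro hr
          obtain ⟨G', h1, h2⟩ := step (B := 0) (s := Sum.inl false)
            (s' := Sum.inr (Sum.inl (⟨0, hr⟩, f ⟨0, hr⟩))) Comp.start
            (mem_image.2 ⟨f ⟨0, hr⟩, mem_univ _, rfl⟩) le_rfl
          exact ⟨G', by omega, h2⟩
        | succ r ih =>
          intro hr
          have hr' : r < t := by omega
          obtain ⟨G1, h1, h2⟩ := ih hr'
          obtain ⟨G2, h3, h4⟩ := step (s' := Sum.inr (Sum.inr (⟨r, hr'⟩, f ⟨r, hr'⟩,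
            x ⟨(f ⟨r, hr'⟩).1, by omega⟩, J ⟨r, hr'⟩))) h2
            (mem_image.2 ⟨J ⟨r, hr'⟩, mem_univ _, rfl⟩) h1
          obtain ⟨G3, h5, h6⟩ := step (s' := Sum.inr (Sum.inl (⟨r + 1, hr⟩, f ⟨r + 1, hr⟩))) h4
            (by
              show _ ∈ (if inc (e (x ⟨(f ⟨r, hr'⟩).1, _⟩)) (e (x ⟨N + (J ⟨r, hr'⟩).1, _⟩)) then
                nextB N W t ⟨r, hr'⟩ (f ⟨r, hr'⟩) else ∅)
              have hJ' : inc (e (x ⟨(f ⟨r, hr'⟩).1, by omega⟩))
                (e (x ⟨N + (J ⟨r, hr'⟩).1, by omega⟩)) := hJ ⟨r, hr'⟩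
              rw [if_pos hJ', nextB, dif_pos hr]
              refine mem_image.2 ⟨f ⟨r + 1, hr⟩, mem_filter.2 ⟨mem_univ _, ?_⟩, rfl⟩
              exact f.strictMono (by simp [Fin.lt_def])) h3
          refine ⟨G3, h5.trans (le_of_eq ?_), h6⟩
          ring
      obtain ⟨G1, h1, h2⟩ := reach (t - 1) (by omega)
      obtain ⟨G2, h3, h4⟩ := step (s' := Sum.inr (Sum.inr (⟨t - 1, by omega⟩,
        f ⟨t - 1, by omega⟩, x ⟨(f ⟨t - 1, by omega⟩).1, by omega⟩, J ⟨t - 1, by omega⟩))) h2
        (mem_image.2 ⟨J ⟨t - 1, by omega⟩, mem_univ _, rfl⟩) h1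
      obtain ⟨G3, h5, h6⟩ := step (s' := Sum.inl true) h4
        (by
          show _ ∈ (if inc (e (x ⟨(f ⟨t - 1, _⟩).1, _⟩)) (e (x ⟨N + (J ⟨t - 1, _⟩).1, _⟩)) then
            nextB N W t ⟨t - 1, _⟩ (f ⟨t - 1, _⟩) else ∅)
          have hJ' : inc (e (x ⟨(f ⟨t - 1, by omega⟩).1, by omega⟩))
            (e (x ⟨N + (J ⟨t - 1, by omega⟩).1, by omega⟩)) := hJ ⟨t - 1, by omega⟩
          rw [if_pos hJ', nextB, dif_neg (by simp; omega)]
          exact mem_singleton_self _) h3
      refine ⟨_, G3, Sum.inl true, ?_, ?_, rfl, h6⟩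
      · have : 2 * (t - 1) + 1 + 1 + 1 = 2 * t + 1 := by omega
        rw [this]
      · have e1 : (2 * (t - 1) + 1) * c + c + c = (2 * t + 1) * c := by
          obtain ⟨u, rfl⟩ : ∃ u, t = u + 1 := ⟨t - 1, by omega⟩
          simp only [Nat.add_sub_cancel]
          ring
        rw [e1] at h5
        exact_mod_cast h5

end

end Pool.Agent.helper45.BP
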